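import Mathlib
import Pool.Agent.H2.TCh1

namespace Pool.Agent.Results.MP_67c2f3_gt.NotTChar

open Pool.Agent.H2.TCh

/-- An open autocharacterized direct summand of finite index that is not T-characterized. -/
theorem result : ∃ (X : Type) (_ : AddCommGroup X) (_ : TopologicalSpace X)
    (H Z : AddSubgroup X), IsTopologicalAddGroup X ∧ T2Space X ∧ IsOpen (H : Set X) ∧
    H.FiniteIndex ∧ IsHomeomorph (fun p : H × Z => (p.1 : X) + p.2) ∧ Auto H ∧ ¬ ChT H :=
  ex_open

end Pool.Agent.Results.MP_67c2f3_gt.NotTChar
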